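import Mathlib

open MeasureTheory ProbabilityTheory

namespace Pool.Agent.Work.MP_0cce6e_pr

section Branch

variable {X : Type*} [MeasurableSpace X] (ρ : Measure X) [IsProbabilityMeasure ρ]

/-- i.i.d. field on all labels -/
noncomputable def field : Measure (List ℕ → X) := Measure.infinitePi fun _ => ρ

instance : IsProbabilityMeasure (field ρ) := by
  unfold field; infer_instance

/-- the field seen from the subtree of `v` -/
def sh {X : Type*} (v : List ℕ) (x : List ℕ → X) : List ℕ → X := fun w => x (w ++ v)

omit [MeasurableSpace X] in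
theorem sh_sh (v w : List ℕ) (x : List ℕ → X) : sh w (sh v x) = sh (w ++ v) x := by
  funext u
  simp [sh, List.append_assoc]

theorem measurable_sh (v : List ℕ) : Measurable (sh v : (List ℕ → X) → (List ℕ → X)) := by
  unfold sh
  fun_prop

theorem map_sh (v : List ℕ) : (field ρ).map (sh v) = field ρ := by
  unfold field
  exact Measure.map_infinitePi_infinitePi_of_inj (P := fun _ : List ℕ => ρ)
    (f := fun w : List ℕ => w ++ v) (List.append_left_injective v)

theorem measure_sh (v : List ℕ) {B : Set (List ℕ → X)} (hB : MeasurableSet B) :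
    field ρ (sh v ⁻¹' B) = field ρ B := by
  rw [← Measure.map_apply (measurable_sh v) hB, map_sh]

/-- independence of disjoint sets of coordinates -/
theorem indep_cyl {S T : Set (List ℕ)} (h : Disjoint S T) {A B : Set (List ℕ → X)}
    (hA : MeasurableSet[cylinderEvents S] A) (hB : MeasurableSet[cylinderEvents T] B) :
    field ρ (A ∩ B) = field ρ A * field ρ B := by
  have h1 : iIndepFun (fun (i : List ℕ) (x : List ℕ → X) => x i) (field ρ) :=
    iIndepFun_infinitePi (P := fun _ : List ℕ => ρ) (X := fun _ x => x) (fun _ => measurable_id)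
  have h2 := indep_iSup_of_disjoint (fun i : List ℕ => (measurable_pi_apply i).comap_le)
    h1.iIndep h
  exact (Indep_iff _ _ _).1 h2 A B hA hB

theorem measurable_sh_cyl (v : List ℕ) {T : Set (List ℕ)} (hT : ∀ w, w ++ v ∈ T) :
    Measurable[cylinderEvents T] (sh v : (List ℕ → X) → (List ℕ → X)) := by
  rw [@measurable_pi_iff]
  intro w
  exact measurable_cylinderEvent_apply (hT w)

/-- the branching property -/
theorem branch {C : Set X} (hC : MeasurableSet C) (S : Finset ℕ) {B : ℕ → Set (List ℕ → X)}
    (hB : ∀ i, MeasurableSet (B i)) :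
    field ρ {x | x [] ∈ C ∧ ∀ i ∈ S, sh [i] x ∈ B i} = ρ C * ∏ i ∈ S, field ρ (B i) := by
  -- strengthen with measurability
  set T : Finset ℕ → Set (List ℕ) := fun S => {w | w = [] ∨ ∃ u : List ℕ, ∃ i ∈ S, w = u ++ [i]}
    with hT
  have hmeas : ∀ S : Finset ℕ, MeasurableSet[cylinderEvents (T S)]
      {x : List ℕ → X | x [] ∈ C ∧ ∀ i ∈ S, sh [i] x ∈ B i} := by
    intro S
    have h1 : {x : List ℕ → X | x [] ∈ C ∧ ∀ i ∈ S, sh [i] x ∈ B i}
        = (fun x : List ℕ → X => x []) ⁻¹' C ∩ ⋂ i ∈ S, sh [i] ⁻¹' B i := by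
      ext x; simp
    rw [h1]
    refine MeasurableSet.inter ?_ ?_
    · exact measurable_cylinderEvent_apply (X := fun _ : List ℕ => X)
        (show ([] : List ℕ) ∈ T S from Or.inl rfl) hC
    · refine Finset.measurableSet_biInter _ fun i hi => ?_
      exact measurable_sh_cyl [i] (fun w => Or.inr ⟨w, i, hi, rfl⟩) (hB i)
  induction S using Finset.induction_on with
  | empty =>
    simp only [Finset.notMem_empty, false_imp_iff, implies_true, and_true, Finset.prod_empty,
      mul_one]
    have := measurePreserving_eval_infinitePi (fun _ : List ℕ => ρ) []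
    exact this.measure_preimage hC.nullMeasurableSet
  | insert j S hj ih =>
    have h1 : {x : List ℕ → X | x [] ∈ C ∧ ∀ i ∈ insert j S, sh [i] x ∈ B i}
        = {x : List ℕ → X | x [] ∈ C ∧ ∀ i ∈ S, sh [i] x ∈ B i} ∩ sh [j] ⁻¹' B j := by
      ext x
      simp only [Set.mem_ofPred_eq, Finset.forall_mem_insert, Set.mem_inter_iff, Set.mem_preimage]
      tauto
    rw [h1]
    have h2 : MeasurableSet[cylinderEvents (Set.range fun w : List ℕ => w ++ [j])]
        (sh [j] ⁻¹' B j) :=
      measurable_sh_cyl [j] (fun w => Set.mem_range_self w) (hB j)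
    have hdisj : Disjoint (T S) (Set.range fun w : List ℕ => w ++ [j]) := by
      rw [Set.disjoint_left]
      rintro w hw ⟨u, rfl⟩
      rcases hw with h | ⟨u', i, hi, h⟩
      · simp at h
      · have := (List.append_inj' h rfl).2
        simp only [List.cons.injEq, and_true] at this
        exact hj (this ▸ hi)
    rw [indep_cyl ρ hdisj (hmeas S) h2, ih, measure_sh ρ [j] (hB j), Finset.prod_insert hj]
    ring

end Branch

end Pool.Agent.Work.MP_0cce6e_pr
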