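import Mathlib

open MeasureTheory ProbabilityTheory

namespace Pool.Agent.Work.MP_0cce6e_pr

/-- One step of `r`-neighbour bootstrap percolation on `G`: infected vertices stay infected, and a
vertex with at least `r` infected neighbours becomes infected. -/
def infectStep {V : Type*} (G : SimpleGraph V) (r : ℕ) (A : Set V) : Set V :=
  A ∪ {v | (r : ℕ∞) ≤ (G.neighborSet v ∩ A).encard}

/-- Started from the infected set `A`, every vertex is eventually infected. -/
def Percolates {V : Type*} (G : SimpleGraph V) (r : ℕ) (A : Set V) : Prop :=
  ∀ v, ∃ n : ℕ, v ∈ (infectStep G r)^[n] A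

/-- The critical probability `p_c(G, r)`: the infimum of all `p ∈ [0,1]` such that, if every vertex
is initially infected independently with probability `p`, then with positive probability every
vertex is eventually infected. -/
noncomputable def criticalProb {V : Type*} (G : SimpleGraph V) (r : ℕ) : ℝ :=
  sInf {p : ℝ | ∃ hp : p ∈ Set.Icc (0 : ℝ) 1,
    0 < setBernoulli (Set.univ : Set V) ⟨p, hp⟩ {A | Percolates G r A}}

/-- Membership in the rooted tree in which the vertex with label `u` (if present) has `c u`
children. Labels are finite lists of natural numbers: the root is `[]` and the children of `u` are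
`0 :: u, 1 :: u, ..., (c u - 1) :: u`. -/
def InTree (c : List ℕ → ℕ) : List ℕ → Prop
  | [] => True
  | i :: u => i < c u ∧ InTree c u

/-- The tree with offspring numbers `c` as a graph: `u` and `i :: u` are adjacent. -/
def treeGraph (c : List ℕ → ℕ) : SimpleGraph {v : List ℕ // InTree c v} where
  Adj u v := (∃ i, v.1 = i :: u.1) ∨ (∃ i, u.1 = i :: v.1)
  symm := ⟨fun _ _ h => h.symm⟩
  loopless := ⟨fun u h => by
    rcases h with ⟨i, hi⟩ | ⟨i, hi⟩ <;>
    · have := congrArg List.length hi
      simp at this⟩

/-- The law of the offspring numbers of the Galton-Watson tree with offspring distribution `ξ`: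
independent numbers with law `ξ`, one for every label. The Galton-Watson tree itself is
`treeGraph c` for a random `c` with this law. -/
noncomputable def gwLaw (ξ : Measure ℕ) : Measure (List ℕ → ℕ) :=
  Measure.infinitePi fun _ : List ℕ => ξ

end Pool.Agent.Work.MP_0cce6e_pr
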