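import Mathlib
import Pool.Agent.Work.MP_0cce6e_pr.Defs

open MeasureTheory ProbabilityTheory

namespace Pool.Agent.Work.MP_0cce6e_pr

variable {V : Type*}

theorem infectStep_mono (G : SimpleGraph V) (r : ℕ) {A B : Set V} (h : A ⊆ B) :
    infectStep G r A ⊆ infectStep G r B := by
  unfold infectStep
  apply Set.union_subset_union h
  intro v hv
  rw [Set.mem_ofPred_eq] at hv ⊢
  exact le_trans hv (Set.encard_le_encard (Set.inter_subset_inter_right _ h))

theorem infectStep_iter_mono (G : SimpleGraph V) (r : ℕ) {A B : Set V} (h : A ⊆ B) (n : ℕ) :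
    (infectStep G r)^[n] A ⊆ (infectStep G r)^[n] B := by
  induction n generalizing A B with
  | zero => simpa using h
  | succ n ih =>
    simp only [Function.iterate_succ, Function.comp]
    exact ih (infectStep_mono G r h)

theorem Percolates.mono {G : SimpleGraph V} {r : ℕ} {A B : Set V} (h : A ⊆ B)
    (hA : Percolates G r A) : Percolates G r B := fun v => by
  obtain ⟨n, hn⟩ := hA v
  exact ⟨n, infectStep_iter_mono G r h n hn⟩

theorem mem_infectStep_iff (G : SimpleGraph V) (r : ℕ) (A : Set V) (v : V) :
    v ∈ infectStep G r A ↔ v ∈ A ∨ ∃ s : Finset V, s.card = r ∧ ∀ w ∈ s, G.Adj v w ∧ w ∈ A := by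
  unfold infectStep
  simp only [Set.mem_union, Set.mem_ofPred_eq]
  constructor
  · rintro (h | h)
    · exact Or.inl h
    · right
      obtain ⟨t, ht, hcard⟩ := Set.exists_subset_encard_eq h
      have hfin : t.Finite := Set.finite_of_encard_eq_coe hcard
      refine ⟨hfin.toFinset, ?_, ?_⟩
      · rw [hfin.encard_eq_coe_toFinset_card] at hcard
        exact_mod_cast hcard
      · intro w hw
        have := ht (hfin.mem_toFinset.1 hw)
        exact ⟨this.1, this.2⟩
  · rintro (h | ⟨s, hs, h⟩)
    · exact Or.inl h
    · right
      have h1 : (s : Set V) ⊆ G.neighborSet v ∩ A := fun w hw => ⟨(h w hw).1, (h w hw).2⟩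
      calc (r : ℕ∞) = (s : Set V).encard := by rw [Set.encard_coe_eq_coe_finsetCard, hs]
        _ ≤ _ := Set.encard_le_encard h1

/-- A set `F` disjoint from the initially infected set, all of whose vertices have fewer than `r`
neighbours outside `F`, stays healthy. -/
theorem fort (G : SimpleGraph V) (r : ℕ) (A F : Set V) (hA : ∀ v ∈ F, v ∉ A)
    (hF : ∀ v ∈ F, (G.neighborSet v \ F).encard < r) (n : ℕ) :
    ∀ v ∈ F, v ∉ (infectStep G r)^[n] A := by
  induction n with
  | zero => simpa using hA
  | succ n ih =>
    intro v hv hmem
    rw [Function.iterate_succ_apply'] at hmem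
    rcases hmem with h | h
    · exact ih v hv h
    · have h1 : G.neighborSet v ∩ (infectStep G r)^[n] A ⊆ G.neighborSet v \ F := by
        rintro w ⟨hw1, hw2⟩
        exact ⟨hw1, fun hwF => ih w hwF hw2⟩
      have h2 := Set.encard_le_encard h1
      exact absurd (lt_of_le_of_lt (le_trans h h2) (hF v hv)) (lt_irrefl _)

theorem measurableSet_infected [Countable V] (G : SimpleGraph V) (r : ℕ) (n : ℕ) (v : V) :
    MeasurableSet {A : Set V | v ∈ (infectStep G r)^[n] A} := by
  induction n generalizing v with
  | zero =>
    simp only [Function.iterate_zero, id_eq]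
    exact measurableSet_setOfPred.2 (by fun_prop)
  | succ n ih =>
    have : {A : Set V | v ∈ (infectStep G r)^[n + 1] A} =
        {A : Set V | v ∈ (infectStep G r)^[n] A} ∪ ⋃ (s : Finset V) (_ : s.card = r),
          ⋂ w ∈ s, ({A : Set V | G.Adj v w} ∩ {A : Set V | w ∈ (infectStep G r)^[n] A}) := by
      ext A
      rw [Set.mem_ofPred_eq, Function.iterate_succ_apply', mem_infectStep_iff]
      simp
    rw [this]
    refine (ih v).union ?_
    refine MeasurableSet.iUnion fun s => MeasurableSet.iUnion fun _ => ?_
    refine Finset.measurableSet_biInter _ fun w _ => ?_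
    exact (MeasurableSet.const _).inter (ih w)

theorem measurableSet_percolates [Countable V] (G : SimpleGraph V) (r : ℕ) :
    MeasurableSet {A : Set V | Percolates G r A} := by
  have : {A : Set V | Percolates G r A} = ⋂ v, ⋃ n : ℕ, {A : Set V | v ∈ (infectStep G r)^[n] A} := by
    ext A
    simp [Percolates]
  rw [this]
  exact MeasurableSet.iInter fun v => MeasurableSet.iUnion fun n => measurableSet_infected G r n v

/-- Bernoulli law on `Prop` -/
noncomputable def ber (p : unitInterval) : Measure Prop :=
  unitInterval.toNNReal p • Measure.dirac True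
    + unitInterval.toNNReal (unitInterval.symm p) • Measure.dirac False

theorem ber_apply (p : unitInterval) (s : Set Prop) : ber p s =
    unitInterval.toNNReal p • Measure.dirac True s
    + unitInterval.toNNReal (unitInterval.symm p) • Measure.dirac False s := by
  rfl

instance (p : unitInterval) : IsProbabilityMeasure (ber p) := by
  constructor
  rw [ber_apply]
  simp only [measure_univ]
  rw [ENNReal.smul_def, ENNReal.smul_def, smul_eq_mul, smul_eq_mul, mul_one, mul_one,
    ← ENNReal.coe_add]
  norm_cast
  ext
  simp

theorem setBernoulli_univ_eq (p : unitInterval) :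
    setBernoulli (Set.univ : Set V) p =
      (Measure.infinitePi fun _ : V => ber p).map (fun q : V → Prop => {i | q i}) := by
  rw [setBernoulli_eq_map]
  simp only [Set.mem_univ]
  rfl

theorem lintegral_ber (p : unitInterval) (f : Prop → ENNReal) :
    ∫⁻ q, f q ∂(ber p) = unitInterval.toNNReal p * f True
      + unitInterval.toNNReal (unitInterval.symm p) * f False := by
  unfold ber
  rw [lintegral_add_measure, lintegral_smul_measure, lintegral_smul_measure]
  simp [ENNReal.smul_def]

/-- coupling: `or` of independent Bernoulli variables -/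
theorem ber_or (p s t : unitInterval) (h : (t : ℝ) = p + (1 - p) * s) :
    ((ber p).prod (ber s)).map (fun q : Prop × Prop => (q.1 ∨ q.2)) = ber t := by
  have hP : (unitInterval.toNNReal p : ℝ) = p := rfl
  have hpc : (unitInterval.toNNReal (unitInterval.symm p) : ℝ) = 1 - p := rfl
  have hS : (unitInterval.toNNReal s : ℝ) = s := rfl
  have hsc : (unitInterval.toNNReal (unitInterval.symm s) : ℝ) = 1 - s := rfl
  have hT : (unitInterval.toNNReal t : ℝ) = t := rfl
  have htc : (unitInterval.toNNReal (unitInterval.symm t) : ℝ) = 1 - t := rfl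
  have e1 : unitInterval.toNNReal t = unitInterval.toNNReal p + unitInterval.toNNReal (unitInterval.symm p) * unitInterval.toNNReal s := by
    ext; push_cast; rw [hT, hP, hpc, hS, h]
  have e2 : unitInterval.toNNReal (unitInterval.symm t) = unitInterval.toNNReal (unitInterval.symm p)
      * unitInterval.toNNReal (unitInterval.symm s) := by
    ext; push_cast; rw [htc, hpc, hsc, h]; ring
  have e3 : unitInterval.toNNReal s + unitInterval.toNNReal (unitInterval.symm s) = 1 := by
    ext; push_cast; rw [hS, hsc]; ring
  have e4 : (unitInterval.toNNReal s : ENNReal) + unitInterval.toNNReal (unitInterval.symm s) = 1 := by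
    rw [← ENNReal.coe_add, e3, ENNReal.coe_one]
  refine Measure.ext fun B _ => ?_
  have hm : Measurable (fun q : Prop × Prop => (q.1 ∨ q.2)) := measurable_of_countable _
  rw [Measure.map_apply hm (MeasurableSet.of_discrete), Measure.prod_apply (hm MeasurableSet.of_discrete),
    lintegral_ber]
  simp only [ber_apply]
  rw [e1, e2]
  by_cases hT : True ∈ B <;> by_cases hF : False ∈ B
  · simp [hT, hF, ENNReal.smul_def, Set.indicator, e4]
    rw [add_assoc, ← mul_add, e4, mul_one]
  · simp [hT, hF, ENNReal.smul_def, Set.indicator, e4]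
  · simp [hT, hF, ENNReal.smul_def, Set.indicator]
  · simp [hT, hF, ENNReal.smul_def, Set.indicator]

theorem ber_map_fst (p s : unitInterval) :
    ((ber p).prod (ber s)).map Prod.fst = ber p := by
  rw [Measure.map_fst_prod, measure_univ, one_smul]

theorem perc_mono [Countable V] (G : SimpleGraph V) (r : ℕ) (p s t : unitInterval)
    (h : (t : ℝ) = p + (1 - p) * s) :
    setBernoulli (Set.univ : Set V) p {A | Percolates G r A}
      ≤ setBernoulli (Set.univ : Set V) t {A | Percolates G r A} := by
  have hm := measurableSet_percolates G r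
  have hmeas : Measurable (fun q : V → Prop => {i | q i}) :=
    MeasurableEquiv.setOfPred.measurable
  rw [setBernoulli_univ_eq, setBernoulli_univ_eq, Measure.map_apply hmeas hm,
    Measure.map_apply hmeas hm]
  have h1 : Measure.infinitePi (fun _ : V => ber p)
      = (Measure.infinitePi fun _ : V => (ber p).prod (ber s)).map (fun x i => (x i).1) := by
    rw [Measure.infinitePi_map_pi (fun _ : V => (ber p).prod (ber s)) (f := fun _ q => q.1)
      (fun _ => measurable_fst)]
    congr 1
    funext i
    exact (ber_map_fst p s).symm
  have hor : Measurable (fun q : Prop × Prop => (q.1 ∨ q.2)) := measurable_of_countable _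
  have h2 : Measure.infinitePi (fun _ : V => ber t)
      = (Measure.infinitePi fun _ : V => (ber p).prod (ber s)).map
        (fun x i => ((x i).1 ∨ (x i).2)) := by
    rw [Measure.infinitePi_map_pi (fun _ : V => (ber p).prod (ber s))
      (f := fun _ q => (q.1 ∨ q.2)) (fun _ => hor)]
    congr 1
    funext i
    exact (ber_or p s t h).symm
  have hor2 : Measurable (fun (x : V → Prop × Prop) (i : V) => ((x i).1 ∨ (x i).2)) :=
    measurable_pi_lambda _ fun i => hor.comp (measurable_pi_apply i)
  rw [h1, h2, Measure.map_apply (by fun_prop) (hmeas hm), Measure.map_apply hor2 (hmeas hm)]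
  apply measure_mono
  intro x hx
  simp only [Set.mem_preimage, Set.mem_ofPred_eq] at hx ⊢
  refine hx.mono ?_
  intro i hi
  exact Or.inl hi

end Pool.Agent.Work.MP_0cce6e_pr
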