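import Mathlib
import Pool.Agent.Work.MP_0cce6e_pr.Defs
import Pool.Agent.Work.MP_0cce6e_pr.Perc
import Pool.Agent.Work.MP_0cce6e_pr.Branch

open MeasureTheory ProbabilityTheory

namespace Pool.Agent.Work.MP_0cce6e_pr

/-- configuration: offspring number and initial infection mark for every label -/
abbrev Conf := List ℕ → ℕ × Prop

/-- infection from below after `n` rounds -/
def D (r : ℕ) (x : Conf) : ℕ → List ℕ → Prop
  | 0, v => (x v).2
  | n + 1, v => (x v).2 ∨ ∃ s : Finset ℕ, s.card = r ∧ (∀ i ∈ s, i < (x v).1) ∧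
      ∀ i ∈ s, D r x n (i :: v)

theorem D_sh (r : ℕ) (x : Conf) (v : List ℕ) (n : ℕ) (w : List ℕ) :
    D r (sh v x) n w ↔ D r x n (w ++ v) := by
  induction n generalizing w with
  | zero => exact Iff.rfl
  | succ n ih =>
    unfold D
    simp only [ih]
    exact Iff.rfl

theorem D_succ_of_D (r : ℕ) (x : Conf) (n : ℕ) (v : List ℕ) (h : D r x n v) : D r x (n + 1) v := by
  induction n generalizing v with
  | zero => exact Or.inl h
  | succ n ih =>
    rcases h with h | ⟨s, hs, h1, h2⟩
    · exact Or.inl h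
    · exact Or.inr ⟨s, hs, h1, fun i hi => ih _ (h2 i hi)⟩

theorem D_mono (r : ℕ) (x : Conf) {m n : ℕ} (h : m ≤ n) (v : List ℕ) (hm : D r x m v) :
    D r x n v := by
  induction n, h using Nat.le_induction with
  | base => exact hm
  | succ n _ ih => exact D_succ_of_D r x n v ih

/-- the vertex is eventually infected from below -/
def DInf (r : ℕ) (x : Conf) (v : List ℕ) : Prop := ∃ n, D r x n v

theorem DInf_of_children (r : ℕ) (x : Conf) (v : List ℕ) (s : Finset ℕ) (hs : s.card = r)
    (h1 : ∀ i ∈ s, i < (x v).1) (h2 : ∀ i ∈ s, DInf r x (i :: v)) : DInf r x v := by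
  choose! f hf using h2
  refine ⟨s.sup f + 1, Or.inr ⟨s, hs, h1, fun i hi => ?_⟩⟩
  exact D_mono r x (Finset.le_sup hi) _ (hf i hi)

theorem DInf_sh (r : ℕ) (x : Conf) (v w : List ℕ) : DInf r (sh v x) w ↔ DInf r x (w ++ v) := by
  unfold DInf
  simp only [D_sh]

/-- the event that the root is healthy, has `k` children, none of them infected from below -/
def H (r k : ℕ) : Set Conf :=
  {x | ¬ (x []).2 ∧ (x []).1 = k ∧ ∀ i < k, ¬ DInf r x [i]}

theorem measurableSet_D (r n : ℕ) (v : List ℕ) : MeasurableSet {x : Conf | D r x n v} := by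
  have h0 : ∀ v : List ℕ, MeasurableSet {x : Conf | (x v).2} := by
    intro v
    exact measurableSet_setOfPred.2 (by fun_prop)
  induction n generalizing v with
  | zero => exact h0 v
  | succ n ih =>
    have : {x : Conf | D r x (n + 1) v} = {x : Conf | (x v).2} ∪ ⋃ (s : Finset ℕ) (_ : s.card = r),
        ((⋂ i ∈ s, {x : Conf | i < (x v).1}) ∩ ⋂ i ∈ s, {x : Conf | D r x n (i :: v)}) := by
      ext x
      simp [D, and_left_comm]
    rw [this]
    refine (h0 v).union ?_
    refine MeasurableSet.iUnion fun s => MeasurableSet.iUnion fun _ => ?_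
    refine (Finset.measurableSet_biInter _ fun i _ => ?_).inter
      (Finset.measurableSet_biInter _ fun i _ => ih _)
    have : {x : Conf | i < (x v).1} = (fun x : Conf => (x v).1) ⁻¹' {m | i < m} := rfl
    rw [this]
    exact (by fun_prop : Measurable fun x : Conf => (x v).1) MeasurableSet.of_discrete

theorem measurableSet_DInf (r : ℕ) (v : List ℕ) : MeasurableSet {x : Conf | DInf r x v} := by
  have : {x : Conf | DInf r x v} = ⋃ n, {x : Conf | D r x n v} := by
    ext x; simp [DInf]
  rw [this]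
  exact MeasurableSet.iUnion fun n => measurableSet_D r n v

theorem H_eq (r k : ℕ) : H r k = {x : Conf | x [] ∈ {y : ℕ × Prop | y.1 = k ∧ ¬ y.2} ∧
    ∀ i ∈ Finset.range k, sh [i] x ∈ {x : Conf | DInf r x []}ᶜ} := by
  ext x
  simp only [H, Set.mem_ofPred_eq, Finset.mem_range, Set.mem_compl_iff, DInf_sh, List.nil_append]
  tauto

theorem measurableSet_H (r k : ℕ) : MeasurableSet (H r k) := by
  rw [H_eq]
  have h1 : {x : Conf | x [] ∈ {y : ℕ × Prop | y.1 = k ∧ ¬ y.2} ∧
    ∀ i ∈ Finset.range k, sh [i] x ∈ {x : Conf | DInf r x []}ᶜ} =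
    (fun x : Conf => x []) ⁻¹' {y : ℕ × Prop | y.1 = k ∧ ¬ y.2} ∩
      ⋂ i ∈ Finset.range k, sh [i] ⁻¹' {x : Conf | DInf r x []}ᶜ := by
    ext x; simp
  rw [h1]
  refine MeasurableSet.inter ?_ ?_
  · exact measurable_pi_apply _ (Set.to_countable _).measurableSet
  · exact Finset.measurableSet_biInter _ fun i _ =>
      measurable_sh [i] (measurableSet_DInf r []).compl

end Pool.Agent.Work.MP_0cce6e_pr
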