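import Mathlib
import Pool.Agent.Work.MP_0cce6e_pr.Down

open MeasureTheory ProbabilityTheory

namespace Pool.Agent.Work.MP_0cce6e_pr

/-- relative labels of the healthy region below `v` -/
def Reg (r : ℕ) (x : Conf) : List ℕ → Prop
  | [] => True
  | i :: u => Reg r x u ∧ i < (x u).1 ∧ ¬ DInf r x (i :: u)

/-- offspring numbers of a configuration -/
def offs (x : Conf) : List ℕ → ℕ := fun v => (x v).1

/-- initially infected vertices of the tree -/
def initSet (x : Conf) : Set {v : List ℕ // InTree (offs x) v} := {v | (x v.1).2}

theorem healthy_of_H {r k : ℕ} (hr : 2 ≤ r) (x : Conf) (v : {v : List ℕ // InTree (offs x) v})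
    (hH : sh v.1 x ∈ H r k) (n : ℕ) :
    v ∉ (infectStep (treeGraph (offs x)) r)^[n] (initSet x) := by
  set F : Set {v : List ℕ // InTree (offs x) v} :=
    {w | ∃ u : List ℕ, w.1 = u ++ v.1 ∧ Reg r (sh v.1 x) u} with hF
  obtain ⟨hH1, hH2, hH3⟩ := hH
  have hx0 : sh v.1 x [] = x v.1 := by simp [sh]
  -- every vertex of F different from v is not infected from below; v itself is healthy
  have hnotD : ∀ u, u ≠ [] → Reg r (sh v.1 x) u → ¬ DInf r x (u ++ v.1) := by
    intro u hu hR
    cases u with
    | nil => exact absurd rfl hu
    | cons i u =>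
      have := hR.2.2
      rwa [DInf_sh] at this
  have hkid : ∀ i < (x v.1).1, ¬ DInf r x (i :: v.1) := by
    intro i hi
    have h1 : (sh v.1 x []).1 = (x v.1).1 := by rw [hx0]
    have h2 := hH3 i (by rw [← hH2, h1]; exact hi)
    rwa [DInf_sh] at h2
  refine fort (treeGraph (offs x)) r (initSet x) F ?_ ?_ n v ⟨[], by simp, trivial⟩
  · rintro w ⟨u, hw, hR⟩ hwA
    have hwA' : (x w.1).2 := hwA
    rcases eq_or_ne u [] with rfl | hu
    · rw [hw, List.nil_append, ← hx0] at hwA'
      exact hH1 hwA'
    · apply hnotD u hu hR
      refine ⟨0, ?_⟩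
      rw [← hw]
      exact hwA'
  · rintro w ⟨u, hw, hR⟩
    rcases eq_or_ne u [] with rfl | hu
    · -- w = v: only the parent can be outside F
      have hwv : w.1 = v.1 := by simpa using hw
      have hsub : (treeGraph (offs x)).neighborSet w \ F ⊆
          {z | ∃ i, v.1 = i :: z.1} := by
        rintro z ⟨hz, hzF⟩
        rcases hz with ⟨i, hi⟩ | ⟨i, hi⟩
        · exfalso
          apply hzF
          refine ⟨[i], ?_, ?_⟩
          · rw [hi, hwv]; rfl
          · have hz2 := z.2
            rw [hi, hwv] at hz2
            have hlt : i < (x v.1).1 := hz2.1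
            refine ⟨trivial, ?_, ?_⟩
            · rw [hx0]; exact hlt
            · rw [DInf_sh]
              exact hkid i hlt
        · exact ⟨i, by rw [← hwv]; exact hi⟩
      have hle : ({z | ∃ i, v.1 = i :: z.1} : Set {v : List ℕ // InTree (offs x) v}).encard ≤ 1 := by
        rw [Set.encard_le_one_iff]
        rintro a b ⟨i, hi⟩ ⟨j, hj⟩
        rw [hi] at hj
        simp only [List.cons.injEq] at hj
        exact Subtype.ext hj.2
      calc ((treeGraph (offs x)).neighborSet w \ F).encard ≤ 1 :=
            (Set.encard_le_encard hsub).trans hle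
        _ < r := by exact_mod_cast (show 1 < r by omega)
    · -- w ≠ v: the parent is in F, and fewer than r children are infected from below
      by_contra hcon
      push Not at hcon
      obtain ⟨t, ht, hcard⟩ := Set.exists_subset_encard_eq hcon
      have hfin : t.Finite := Set.finite_of_encard_eq_coe hcard
      -- all elements of t are children of w
      have hchild : ∀ z ∈ t, ∃ i, z.1 = i :: w.1 ∧ i < (x w.1).1 ∧ DInf r x (i :: w.1) := by
        intro z hz
        obtain ⟨hz1, hz2⟩ := ht hz
        rcases hz1 with ⟨i, hi⟩ | ⟨i, hi⟩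
        · have hz3 := z.2
          rw [hi] at hz3
          have hlt : i < (x w.1).1 := hz3.1
          refine ⟨i, hi, hlt, ?_⟩
          by_contra hD
          apply hz2
          refine ⟨i :: u, ?_, hR, ?_, ?_⟩
          · rw [hi, hw]; rfl
          · have : sh v.1 x u = x w.1 := by rw [hw]; rfl
            rw [this]; exact hlt
          · rw [DInf_sh, List.cons_append, ← hw]; exact hD
        · exfalso
          apply hz2
          cases u with
          | nil => exact absurd rfl hu
          | cons j u =>
            rw [hi, List.cons_append, List.cons.injEq] at hw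
            exact ⟨u, hw.2, hR.1⟩
      choose! f hf1 hf2 hf3 using hchild
      have hinj : Set.InjOn f t := by
        intro a ha b hb hab
        apply Subtype.ext
        rw [hf1 a ha, hf1 b hb, hab]
      classical
      have hs : (hfin.toFinset.image f).card = r := by
        rw [Finset.card_image_of_injOn (by simpa using hinj)]
        rw [hfin.encard_eq_coe_toFinset_card] at hcard
        exact_mod_cast hcard
      have := DInf_of_children r x w.1 (hfin.toFinset.image f) hs
        (by
          intro i hi
          obtain ⟨z, hz, rfl⟩ := Finset.mem_image.1 hi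
          exact hf2 z (hfin.mem_toFinset.1 hz))
        (by
          intro i hi
          obtain ⟨z, hz, rfl⟩ := Finset.mem_image.1 hi
          exact hf3 z (hfin.mem_toFinset.1 hz))
      rw [hw] at this
      exact hnotD u hu hR this

end Pool.Agent.Work.MP_0cce6e_pr
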