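import Mathlib
import Pool.Agent.Work.MP_0cce6e_pr.Down

open MeasureTheory ProbabilityTheory
open scoped ENNReal

namespace Pool.Agent.Work.MP_0cce6e_pr

/-- law of one site -/
noncomputable def site (ξ : Measure ℕ) (p : unitInterval) : Measure (ℕ × Prop) :=
  ξ.prod (ber p)

variable (ξ : Measure ℕ) [IsProbabilityMeasure ξ] (p : unitInterval)

instance : IsProbabilityMeasure (site ξ p) := by
  unfold site; infer_instance

theorem ber_true : ber p {q : Prop | q} = unitInterval.toNNReal p := by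
  rw [ber_apply]
  simp

theorem ber_false : ber p {q : Prop | ¬ q} = unitInterval.toNNReal (unitInterval.symm p) := by
  rw [ber_apply]
  simp

theorem site_fst (k : ℕ) : site ξ p {y | y.1 = k} = ξ {k} := by
  have : {y : ℕ × Prop | y.1 = k} = {k} ×ˢ Set.univ := by
    ext y; simp
  rw [this, site, Measure.prod_prod, measure_univ, mul_one]

theorem site_snd : site ξ p {y | y.2} = unitInterval.toNNReal p := by
  have : {y : ℕ × Prop | y.2} = Set.univ ×ˢ {q : Prop | q} := by
    ext y; simp
  rw [this, site, Measure.prod_prod, measure_univ, one_mul, ber_true]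

theorem site_both (k : ℕ) : site ξ p {y | y.1 = k ∧ ¬ y.2}
    = ξ {k} * unitInterval.toNNReal (unitInterval.symm p) := by
  have : {y : ℕ × Prop | y.1 = k ∧ ¬ y.2} = {k} ×ˢ {q : Prop | ¬ q} := by
    ext y; simp
  rw [this, site, Measure.prod_prod, ber_false]

/-- the functional `E min(1, (ξ q)^r)` -/
noncomputable def Phi (r : ℕ) (q : ℝ≥0∞) : ℝ≥0∞ := ∑' k : ℕ, ξ {k} * min 1 ((k * q) ^ r)

theorem Phi_mono (r : ℕ) {q q' : ℝ≥0∞} (h : q ≤ q') : Phi ξ r q ≤ Phi ξ r q' := by
  unfold Phi
  refine ENNReal.tsum_le_tsum fun k => ?_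
  gcongr

/-- probability that the root is infected from below after `n` rounds -/
noncomputable def qn (r n : ℕ) : ℝ≥0∞ := field (site ξ p) {x | D r x n []}

theorem qn_zero (r : ℕ) : qn ξ p r 0 = unitInterval.toNNReal p := by
  unfold qn
  have : {x : Conf | D r x 0 []} = {x : Conf | x [] ∈ {y : ℕ × Prop | y.2} ∧
      ∀ i ∈ (∅ : Finset ℕ), sh [i] x ∈ (Set.univ : Set Conf)} := by
    ext x; simp [D]
  rw [this, branch (site ξ p) (C := {y : ℕ × Prop | y.2}) (Set.to_countable _).measurableSet ∅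
    (fun _ => MeasurableSet.univ), site_snd]
  simp

theorem qn_succ_le (r n : ℕ) :
    qn ξ p r (n + 1) ≤ unitInterval.toNNReal p + Phi ξ r (qn ξ p r n) := by
  have hsub : {x : Conf | D r x (n + 1) []} ⊆ {x : Conf | D r x 0 []} ∪
      ⋃ k : ℕ, {x : Conf | (x []).1 = k ∧ ∃ s ∈ (Finset.range k).powersetCard r,
        ∀ i ∈ s, sh [i] x ∈ {x : Conf | D r x n []}} := by
    rintro x (h | ⟨s, hs, h1, h2⟩)
    · exact Or.inl h
    · right
      rw [Set.mem_iUnion]
      refine ⟨(x []).1, rfl, s, ?_, ?_⟩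
      · rw [Finset.mem_powersetCard]
        exact ⟨fun i hi => Finset.mem_range.2 (h1 i hi), hs⟩
      · intro i hi
        rw [Set.mem_ofPred_eq, D_sh]
        exact h2 i hi
  unfold qn
  refine (measure_mono hsub).trans ?_
  refine (measure_union_le _ _).trans ?_
  have h0 := qn_zero ξ p r
  unfold qn at h0
  rw [h0]
  refine add_le_add le_rfl ?_
  refine (measure_iUnion_le _).trans ?_
  unfold Phi
  refine ENNReal.tsum_le_tsum fun k => ?_
  have hC : MeasurableSet {y : ℕ × Prop | y.1 = k} := (Set.to_countable _).measurableSet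
  have hb : ∀ s : Finset ℕ, field (site ξ p) {x : Conf | x [] ∈ {y : ℕ × Prop | y.1 = k} ∧
      ∀ i ∈ s, sh [i] x ∈ {x : Conf | D r x n []}} = ξ {k} * (field (site ξ p) {x | D r x n []}) ^ s.card := by
    intro s
    rw [branch (site ξ p) hC s (fun _ => measurableSet_D r n []), site_fst, Finset.prod_const]
  rw [mul_min, mul_one]
  apply le_min
  · refine (measure_mono ?_).trans (le_of_eq ((hb ∅).trans (by simp)))
    rintro x ⟨hx, -⟩
    exact ⟨hx, by simp⟩
  · have hsub2 : {x : Conf | (x []).1 = k ∧ ∃ s ∈ (Finset.range k).powersetCard r,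
        ∀ i ∈ s, sh [i] x ∈ {x : Conf | D r x n []}} ⊆
        ⋃ s ∈ (Finset.range k).powersetCard r, {x : Conf | x [] ∈ {y : ℕ × Prop | y.1 = k} ∧
      ∀ i ∈ s, sh [i] x ∈ {x : Conf | D r x n []}} := by
      rintro x ⟨hx, s, hs, h⟩
      rw [Set.mem_iUnion₂]
      exact ⟨s, hs, hx, h⟩
    refine (measure_mono hsub2).trans ((measure_biUnion_finset_le _ _).trans ?_)
    have h3 : ∀ s ∈ (Finset.range k).powersetCard r,
        field (site ξ p) {x : Conf | x [] ∈ {y : ℕ × Prop | y.1 = k} ∧
          ∀ i ∈ s, sh [i] x ∈ {x : Conf | D r x n []}}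
        = ξ {k} * (field (site ξ p) {x | D r x n []}) ^ r := by
      intro s hs
      rw [hb s, (Finset.mem_powersetCard.1 hs).2]
    rw [Finset.sum_congr rfl h3, Finset.sum_const, Finset.card_powersetCard, Finset.card_range,
      nsmul_eq_mul, mul_pow]
    have h4 : ((k.choose r : ℕ) : ℝ≥0∞) ≤ (k : ℝ≥0∞) ^ r := by
      exact_mod_cast Nat.choose_le_pow k r
    calc ((k.choose r : ℕ) : ℝ≥0∞) * (ξ {k} * (field (site ξ p) {x | D r x n []}) ^ r)
        ≤ (k : ℝ≥0∞) ^ r * (ξ {k} * (field (site ξ p) {x | D r x n []}) ^ r) := by gcongr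
      _ = _ := by ring

/-- the criterion keeping the recursion below `u` -/
theorem qn_le {r : ℕ} {u : ℝ≥0∞} (hu : unitInterval.toNNReal p + Phi ξ r u ≤ u) (n : ℕ) :
    qn ξ p r n ≤ u := by
  induction n with
  | zero =>
    rw [qn_zero]
    exact le_self_add.trans hu
  | succ n ih =>
    exact (qn_succ_le ξ p r n).trans ((add_le_add le_rfl (Phi_mono ξ r ih)).trans hu)

theorem q_le {r : ℕ} {u : ℝ≥0∞} (hu : unitInterval.toNNReal p + Phi ξ r u ≤ u) :
    field (site ξ p) {x | DInf r x []} ≤ u := by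
  have : {x : Conf | DInf r x []} = ⋃ n, {x : Conf | D r x n []} := by
    ext x; simp [DInf]
  rw [this, Monotone.measure_iUnion]
  · exact iSup_le fun n => qn_le ξ p hu n
  · intro m n hmn x hx
    exact D_mono r x hmn [] hx

/-- the local obstruction has positive probability -/
theorem H_pos {r k : ℕ} {u : ℝ≥0∞} (hu : unitInterval.toNNReal p + Phi ξ r u ≤ u) (hu1 : u < 1)
    (hp : (p : ℝ) < 1) (hk : ξ {k} ≠ 0) : 0 < field (site ξ p) (H r k) := by
  rw [H_eq, branch (site ξ p) (C := {y : ℕ × Prop | y.1 = k ∧ ¬ y.2})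
    (Set.to_countable _).measurableSet (Finset.range k)
    (fun _ => (measurableSet_DInf r []).compl), site_both, Finset.prod_const]
  have h1 : field (site ξ p) {x : Conf | DInf r x []}ᶜ ≠ 0 := by
    rw [measure_compl (measurableSet_DInf r []) (measure_ne_top _ _), measure_univ]
    have h2 := lt_of_le_of_lt (q_le ξ p hu) hu1
    exact (tsub_pos_of_lt h2).ne'
  have h3 : (unitInterval.toNNReal (unitInterval.symm p) : ℝ≥0∞) ≠ 0 := by
    have : unitInterval.toNNReal (unitInterval.symm p) ≠ 0 := by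
      intro h0
      have h4 : ((unitInterval.toNNReal (unitInterval.symm p) : NNReal) : ℝ) = 1 - p := rfl
      rw [h0] at h4
      simp at h4
      linarith
    exact_mod_cast this
  exact pos_iff_ne_zero.2 (mul_ne_zero (mul_ne_zero hk h3) (pow_ne_zero _ h1))

/-! ### subcritical trees are finite -/

end Pool.Agent.Work.MP_0cce6e_pr
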