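import Mathlib
import Pool.Agent.Work.MP_0cce6e_pr.Prob
import Pool.Agent.Work.MP_0cce6e_pr.Det

open MeasureTheory ProbabilityTheory
open scoped ENNReal symmDiff

namespace Pool.Agent.Work.MP_0cce6e_pr

variable (ξ : Measure ℕ) [IsProbabilityMeasure ξ] (p : unitInterval)

theorem inTree_append (x : Conf) (i : ℕ) (w : List ℕ) :
    InTree (offs x) (w ++ [i]) ↔ i < (x []).1 ∧ InTree (offs (sh [i] x)) w := by
  induction w with
  | nil => simp [InTree, offs]
  | cons j w ih =>
    simp only [List.cons_append, InTree]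
    rw [ih]
    simp only [offs, sh]
    tauto

/-- level `n` is nonempty -/
def Level (n : ℕ) : Set Conf := {x | ∃ v : List ℕ, v.length = n ∧ InTree (offs x) v}

theorem measurableSet_inTree (S : Set (List ℕ)) (v : List ℕ) (hS : ∀ w : List ℕ, w.length < v.length → w ∈ S) :
    MeasurableSet[cylinderEvents S] {x : Conf | InTree (offs x) v} := by
  induction v with
  | nil => simp [InTree]
  | cons i u ih =>
    have h1 : {x : Conf | InTree (offs x) (i :: u)} =
        (fun x : Conf => x u) ⁻¹' {y : ℕ × Prop | i < y.1} ∩ {x : Conf | InTree (offs x) u} := by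
      ext x; simp [InTree, offs]
    rw [h1]
    refine MeasurableSet.inter ?_ (ih fun w hw => hS w (by simp; omega))
    exact measurable_cylinderEvent_apply (X := fun _ : List ℕ => ℕ × Prop)
      (hS u (by simp)) (Set.to_countable _).measurableSet

theorem measurableSet_Level (n : ℕ) : MeasurableSet (Level n) := by
  have h1 : Level n = ⋃ (v : List ℕ) (_ : v.length = n), {x : Conf | InTree (offs x) v} := by
    ext x; simp [Level]
  rw [h1]
  refine MeasurableSet.iUnion fun v => MeasurableSet.iUnion fun _ => ?_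
  have := measurableSet_inTree Set.univ v (fun _ _ => Set.mem_univ _)
  rwa [cylinderEvents_univ] at this

theorem level_succ_le (n : ℕ) : field (site ξ p) (Level (n + 1)) ≤
    (∫⁻ k : ℕ, (k : ℝ≥0∞) ∂ξ) * field (site ξ p) (Level n) := by
  have hsub : Level (n + 1) ⊆ ⋃ k : ℕ, ⋃ i ∈ Finset.range k,
      {x : Conf | x [] ∈ {y : ℕ × Prop | y.1 = k} ∧ ∀ j ∈ ({i} : Finset ℕ), sh [j] x ∈ Level n} := by
    rintro x ⟨v, hv, hT⟩
    rcases List.eq_nil_or_concat v with rfl | ⟨w, i, rfl⟩
    · simp at hv
    · rw [List.concat_eq_append] at hv hT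
      rw [inTree_append] at hT
      rw [Set.mem_iUnion]
      refine ⟨(x []).1, ?_⟩
      rw [Set.mem_iUnion₂]
      refine ⟨i, Finset.mem_range.2 hT.1, rfl, ?_⟩
      intro j hj
      rw [Finset.mem_singleton] at hj
      subst hj
      refine ⟨w, ?_, hT.2⟩
      simpa using hv
  refine (measure_mono hsub).trans ((measure_iUnion_le _).trans ?_)
  rw [lintegral_countable', ← ENNReal.tsum_mul_right]
  refine ENNReal.tsum_le_tsum fun k => ?_
  refine (measure_biUnion_finset_le _ _).trans ?_
  have h3 : ∀ i ∈ Finset.range k, field (site ξ p)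
      {x : Conf | x [] ∈ {y : ℕ × Prop | y.1 = k} ∧ ∀ j ∈ ({i} : Finset ℕ), sh [j] x ∈ Level n}
      = ξ {k} * field (site ξ p) (Level n) := by
    intro i _
    rw [branch (site ξ p) (C := {y : ℕ × Prop | y.1 = k}) (Set.to_countable _).measurableSet {i}
      (fun _ => measurableSet_Level n), site_fst, Finset.prod_singleton]
  rw [Finset.sum_congr rfl h3, Finset.sum_const, Finset.card_range, nsmul_eq_mul]
  apply le_of_eq
  ring

theorem level_le (n : ℕ) : field (site ξ p) (Level n) ≤ (∫⁻ k : ℕ, (k : ℝ≥0∞) ∂ξ) ^ n := by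
  induction n with
  | zero => simpa using prob_le_one
  | succ n ih =>
    refine (level_succ_le ξ p n).trans ?_
    rw [pow_succ, mul_comm]
    gcongr

/-- finite levels -/
theorem finite_level (c : List ℕ → ℕ) (n : ℕ) : {v : List ℕ | v.length = n ∧ InTree c v}.Finite := by
  induction n with
  | zero =>
    apply Set.Finite.subset (Set.finite_singleton ([] : List ℕ))
    rintro v ⟨hv, -⟩
    simpa using hv
  | succ n ih =>
    have hsub : {v : List ℕ | v.length = n + 1 ∧ InTree c v} ⊆
        ⋃ u ∈ {v : List ℕ | v.length = n ∧ InTree c v}, (fun i => i :: u) '' {i | i < c u} := by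
      rintro v ⟨hv, hT⟩
      cases v with
      | nil => simp at hv
      | cons i u =>
        simp only [Set.mem_iUnion]
        exact ⟨u, ⟨by simpa using hv, hT.2⟩, i, hT.1, rfl⟩
    refine Set.Finite.subset (ih.biUnion fun u _ => (Set.finite_lt_nat (c u)).image _) hsub

theorem inTree_of_longer (c : List ℕ → ℕ) (n : ℕ) (v : List ℕ) (hv : n ≤ v.length)
    (hT : InTree c v) : ∃ u : List ℕ, u.length = n ∧ InTree c u := by
  induction v with
  | nil =>
    refine ⟨[], ?_, trivial⟩
    simpa using hv.antisymm' (Nat.zero_le _)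
  | cons i u ih =>
    rcases Nat.lt_or_ge u.length n with h | h
    · refine ⟨i :: u, ?_, hT⟩
      simp at hv ⊢
      omega
    · exact ih h hT.2

theorem level_of_infinite (x : Conf) (h : {v | InTree (offs x) v}.Infinite) (n : ℕ) :
    x ∈ Level n := by
  by_contra hcon
  apply h
  have hsub : {v | InTree (offs x) v} ⊆ ⋃ m ∈ Finset.range n, {v : List ℕ | v.length = m ∧ InTree (offs x) v} := by
    intro v hv
    simp only [Set.mem_iUnion]
    refine ⟨v.length, ?_, rfl, hv⟩
    rw [Finset.mem_range]
    by_contra hlt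
    push Not at hlt
    obtain ⟨u, hu, hT⟩ := inTree_of_longer (offs x) n v hlt hv
    exact hcon ⟨u, hu, hT⟩
  refine Set.Finite.subset (Set.Finite.biUnion (Finset.finite_toSet _) fun m _ => ?_) hsub
  exact finite_level (offs x) m

theorem subcritical (h : ∫⁻ k : ℕ, (k : ℝ≥0∞) ∂ξ < 1) :
    field (site ξ p) {x : Conf | {v | InTree (offs x) v}.Infinite} = 0 := by
  have h1 : ∀ n, field (site ξ p) {x : Conf | {v | InTree (offs x) v}.Infinite}
      ≤ (∫⁻ k : ℕ, (k : ℝ≥0∞) ∂ξ) ^ n := fun n =>
    (measure_mono fun x hx => level_of_infinite x hx n).trans (level_le ξ p n)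
  have h2 := ENNReal.tendsto_pow_atTop_nhds_zero_of_lt_one h
  exact le_antisymm (ge_of_tendsto' h2 h1) zero_le

/-! ### zero-one argument -/

/-- `v` is the first vertex of level `n` in some fixed enumeration -/
def First (n : ℕ) (v : List ℕ) : Set Conf :=
  {x | InTree (offs x) v ∧ ∀ u : List ℕ, u.length = n → Encodable.encode u < Encodable.encode v →
    ¬ InTree (offs x) u}

theorem measurableSet_First {n : ℕ} {v : List ℕ} (hv : v.length = n) :
    MeasurableSet[cylinderEvents {w : List ℕ | w.length < n}] (First n v) := by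
  have h1 : First n v = {x : Conf | InTree (offs x) v} ∩
      ⋂ (u : List ℕ) (_ : u.length = n) (_ : Encodable.encode u < Encodable.encode v),
        {x : Conf | InTree (offs x) u}ᶜ := by
    ext x; simp [First]
  rw [h1]
  refine MeasurableSet.inter (measurableSet_inTree _ v fun w hw => ?_) ?_
  · simpa [hv] using hw
  · refine MeasurableSet.iInter fun u => MeasurableSet.iInter fun hu => MeasurableSet.iInter fun _ => ?_
    refine (measurableSet_inTree _ u fun w hw => ?_).compl
    simpa [hu] using hw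

theorem exists_first {n : ℕ} {x : Conf} (hx : x ∈ Level n) :
    ∃ v : List ℕ, v.length = n ∧ x ∈ First n v := by
  obtain ⟨v, hv, hT⟩ := hx
  let P : ℕ → Prop := fun m => ∃ u : List ℕ, u.length = n ∧ InTree (offs x) u ∧ Encodable.encode u = m
  have hP : ∃ m, P m := ⟨_, v, hv, hT, rfl⟩
  classical
  obtain ⟨u, hu, hTu, henc⟩ := Nat.find_spec hP
  refine ⟨u, hu, hTu, fun w hw hlt hTw => ?_⟩
  rw [henc] at hlt
  exact Nat.find_min hP hlt ⟨w, hw, hTw, rfl⟩

theorem first_disjoint {n : ℕ} {x : Conf} {u v : List ℕ} (hu : u.length = n) (hv : v.length = n)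
    (h1 : x ∈ First n u) (h2 : x ∈ First n v) : u = v := by
  rcases lt_trichotomy (Encodable.encode u) (Encodable.encode v) with h | h | h
  · exact absurd h1.1 (h2.2 u hu h)
  · exact Encodable.encode_injective h
  · exact absurd h2.1 (h1.2 v hv h)

/-- no vertex of the tree carries the obstruction -/
def NoObs (B : Set Conf) : Set Conf := {x | ∀ v, InTree (offs x) v → sh v x ∉ B}

theorem measurableSet_NoObs {B : Set Conf} (hB : MeasurableSet B) : MeasurableSet (NoObs B) := by
  have h1 : NoObs B = ⋂ v : List ℕ, ({x : Conf | InTree (offs x) v}ᶜ ∪ (sh v ⁻¹' B)ᶜ) := by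
    ext x
    simp only [NoObs, Set.mem_ofPred_eq, Set.mem_iInter, Set.mem_union, Set.mem_compl_iff,
      Set.mem_preimage]
    exact forall_congr' fun v => by tauto
  rw [h1]
  refine MeasurableSet.iInter fun v => MeasurableSet.union ?_ (measurable_sh v hB).compl
  have := measurableSet_inTree Set.univ v (fun _ _ => Set.mem_univ _)
  rw [cylinderEvents_univ] at this
  exact this.compl

/-- conditionally on the first levels, the obstruction occurs with probability at least `δ` -/
theorem level_obs {B : Set Conf} (hB : MeasurableSet B) (n : ℕ) {A : Set Conf}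
    (hA : MeasurableSet[cylinderEvents {w : List ℕ | w.length < n}] A) :
    field (site ξ p) B * field (site ξ p) (A ∩ Level n) ≤ field (site ξ p) (A \ NoObs B) := by
  set μ := field (site ξ p) with hμ
  have hle : cylinderEvents (X := fun _ : List ℕ => ℕ × Prop) {w : List ℕ | w.length < n}
      ≤ MeasurableSpace.pi := cylinderEvents_le_pi
  let I := {v : List ℕ // v.length = n}
  have hAF : ∀ v : I, MeasurableSet[cylinderEvents {w : List ℕ | w.length < n}] (A ∩ First n v.1) :=
    fun v => hA.inter (measurableSet_First v.2)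
  have h1 : A ∩ Level n ⊆ ⋃ v : I, (A ∩ First n v.1) := by
    rintro x ⟨hxA, hxL⟩
    obtain ⟨v, hv, hF⟩ := exists_first hxL
    exact Set.mem_iUnion.2 ⟨⟨v, hv⟩, hxA, hF⟩
  have h2 : (⋃ v : I, (A ∩ First n v.1) ∩ sh v.1 ⁻¹' B) ⊆ A \ NoObs B := by
    intro x hx
    obtain ⟨v, ⟨hxA, hxF⟩, hxB⟩ := Set.mem_iUnion.1 hx
    exact ⟨hxA, fun hno => hno v.1 hxF.1 hxB⟩
  have h3 : ∀ v : I, μ ((A ∩ First n v.1) ∩ sh v.1 ⁻¹' B) = μ (A ∩ First n v.1) * μ B := by
    intro v
    have hT : MeasurableSet[cylinderEvents (Set.range fun w : List ℕ => w ++ v.1)]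
        (sh v.1 ⁻¹' B) := measurable_sh_cyl v.1 (fun w => Set.mem_range_self w) hB
    have hdisj : Disjoint {w : List ℕ | w.length < n} (Set.range fun w : List ℕ => w ++ v.1) := by
      rw [Set.disjoint_left]
      rintro w hw ⟨u, rfl⟩
      simp only [Set.mem_ofPred_eq, List.length_append, v.2] at hw
      omega
    rw [hμ, indep_cyl (site ξ p) hdisj (hAF v) hT, measure_sh _ _ hB]
  have hdis : Pairwise (Function.onFun Disjoint fun v : I => (A ∩ First n v.1) ∩ sh v.1 ⁻¹' B) := by
    intro u v huv
    rw [Function.onFun, Set.disjoint_left]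
    rintro x ⟨⟨-, hu⟩, -⟩ ⟨⟨-, hv⟩, -⟩
    exact huv (Subtype.ext (first_disjoint u.2 v.2 hu hv))
  have hmeas : ∀ v : I, MeasurableSet ((A ∩ First n v.1) ∩ sh v.1 ⁻¹' B) := fun v =>
    (hle _ (hAF v)).inter (measurable_sh v.1 hB)
  calc μ B * μ (A ∩ Level n) ≤ μ B * ∑' v : I, μ (A ∩ First n v.1) := by
        gcongr
        exact (measure_mono h1).trans (measure_iUnion_le _)
    _ = ∑' v : I, μ ((A ∩ First n v.1) ∩ sh v.1 ⁻¹' B) := by
        rw [← ENNReal.tsum_mul_left]
        congr 1
        funext v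
        rw [h3 v, mul_comm]
    _ = μ (⋃ v : I, (A ∩ First n v.1) ∩ sh v.1 ⁻¹' B) := (measure_iUnion hdis hmeas).symm
    _ ≤ μ (A \ NoObs B) := measure_mono h2

/-- cylinders only involve finitely many levels -/
theorem cylinder_level {A : Set Conf} (hA : A ∈ measurableCylinders fun _ : List ℕ => ℕ × Prop) :
    ∃ n, MeasurableSet[cylinderEvents {w : List ℕ | w.length < n}] A := by
  rw [mem_measurableCylinders] at hA
  obtain ⟨s, S, hS, rfl⟩ := hA
  refine ⟨s.sup List.length + 1, ?_⟩
  unfold cylinder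
  have : Measurable[cylinderEvents {w : List ℕ | w.length < s.sup List.length + 1}]
      (s.restrict : Conf → _) := by
    rw [@measurable_pi_iff]
    intro i
    refine measurable_cylinderEvent_apply (X := fun _ : List ℕ => ℕ × Prop) ?_
    exact Nat.lt_succ_of_le (Finset.le_sup (f := List.length) i.2)
  exact this hS

theorem noObs_null {B : Set Conf} (hB : MeasurableSet B) (hpos : 0 < field (site ξ p) B) :
    field (site ξ p) ({x : Conf | {v | InTree (offs x) v}.Infinite} ∩ NoObs B) = 0 := by
  set μ := field (site ξ p) with hμ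
  have hdense : μ.MeasureDense (measurableCylinders fun _ : List ℕ => ℕ × Prop) :=
    Measure.MeasureDense.of_generateFrom_isSetAlgebra_finite μ isSetAlgebra_measurableCylinders
      generateFrom_measurableCylinders.symm
  have hE := measurableSet_NoObs hB
  have key : ∀ ε : ℝ, 0 < ε →
      μ ({x : Conf | {v | InTree (offs x) v}.Infinite} ∩ NoObs B) ≤
        ENNReal.ofReal ε / μ B + ENNReal.ofReal ε := by
    intro ε hε
    obtain ⟨A, hAc, hA⟩ := hdense.approx (NoObs B) hE (measure_ne_top _ _) ε hε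
    obtain ⟨n, hn⟩ := cylinder_level hAc
    have h1 := level_obs ξ p hB n hn
    have h2 : μ (A \ NoObs B) ≤ ENNReal.ofReal ε := by
      refine (measure_mono ?_).trans hA.le
      exact fun x hx => Or.inr hx
    have h3 : μ (NoObs B \ A) ≤ ENNReal.ofReal ε := by
      refine (measure_mono ?_).trans hA.le
      exact fun x hx => Or.inl hx
    have h4 : μ (A ∩ Level n) ≤ ENNReal.ofReal ε / μ B := by
      rw [ENNReal.le_div_iff_mul_le (Or.inl hpos.ne') (Or.inl (measure_ne_top _ _)), mul_comm]
      exact h1.trans h2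
    refine (measure_mono ?_).trans ((measure_union_le (A ∩ Level n) (NoObs B \ A)).trans
      (add_le_add h4 h3))
    rintro x ⟨hx1, hx2⟩
    by_cases hxA : x ∈ A
    · exact Or.inl ⟨hxA, level_of_infinite x hx1 n⟩
    · exact Or.inr ⟨hx2, hxA⟩
  have hlim : Filter.Tendsto (fun m : ℕ => ENNReal.ofReal (1 / ((m : ℝ) + 1)) / μ B
      + ENNReal.ofReal (1 / ((m : ℝ) + 1))) Filter.atTop (nhds (0 / μ B + 0)) := by
    have h0 : Filter.Tendsto (fun m : ℕ => ENNReal.ofReal (1 / ((m : ℝ) + 1))) Filter.atTop
        (nhds 0) := by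
      rw [← ENNReal.ofReal_zero]
      exact ENNReal.tendsto_ofReal tendsto_one_div_add_atTop_nhds_zero_nat
    exact (ENNReal.Tendsto.div_const h0 (Or.inr hpos.ne')).add h0
  have := ge_of_tendsto' hlim fun m => key (1 / ((m : ℝ) + 1)) (by positivity)
  simpa using this

end Pool.Agent.Work.MP_0cce6e_pr
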