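import Mathlib
import Pool.Agent.Work.MP_0cce6e_pr.Survive

open MeasureTheory ProbabilityTheory
open scoped ENNReal

namespace Pool.Agent.Work.MP_0cce6e_pr

variable (ξ : Measure ℕ) [IsProbabilityMeasure ξ] (p : unitInterval)

instance : IsProbabilityMeasure (gwLaw ξ) := by
  unfold gwLaw; infer_instance

/-- marks on all labels -/
noncomputable def marks : Measure (List ℕ → Prop) := Measure.infinitePi fun _ : List ℕ => ber p

instance : IsProbabilityMeasure (marks p) := by
  unfold marks; infer_instance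

/-- combine offspring numbers and marks -/
def zip (q : (List ℕ → ℕ) × (List ℕ → Prop)) : Conf := fun v => (q.1 v, q.2 v)

theorem measurable_zip : Measurable zip := by
  unfold zip
  refine measurable_pi_lambda _ fun v => ?_
  exact ((measurable_pi_apply v).comp measurable_fst).prodMk
    ((measurable_pi_apply v).comp measurable_snd)

theorem map_zip : ((gwLaw ξ).prod (marks p)).map zip = field (site ξ p) := by
  unfold field
  apply Measure.eq_infinitePi
  intro s t ht
  have hbox : MeasurableSet ((s : Set (List ℕ)).pi t) :=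
    MeasurableSet.pi s.countable_toSet fun i _ => ht i
  rw [Measure.map_apply measurable_zip hbox]
  set E : Set ((s → ℕ) × (s → Prop)) := {q | ∀ i : s, (q.1 i, q.2 i) ∈ t i} with hE
  have h1 : zip ⁻¹' ((s : Set (List ℕ)).pi t) =
      Prod.map (s.restrict (π := fun _ => ℕ)) (s.restrict (π := fun _ => Prop)) ⁻¹' E := by
    ext q
    simp [zip, hE, Set.mem_pi]
  have hEm : MeasurableSet E := by
    have : E = ⋂ i : s, (fun q : (s → ℕ) × (s → Prop) => (q.1 i, q.2 i)) ⁻¹' (t i) := by
      ext q; simp [hE]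
    rw [this]
    refine MeasurableSet.iInter fun i => ?_
    refine (Measurable.prodMk ?_ ?_) (ht i)
    · exact (measurable_pi_apply i).comp measurable_fst
    · exact (measurable_pi_apply i).comp measurable_snd
  rw [h1, ← Measure.map_apply (by fun_prop) hEm, ← Measure.map_prod_map _ _ (by fun_prop) (by fun_prop)]
  unfold gwLaw marks
  rw [Measure.infinitePi_map_restrict, Measure.infinitePi_map_restrict]
  have h2 := measurePreserving_arrowProdEquivProdArrow ℕ Prop s (fun _ => ξ) (fun _ => ber p)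
  rw [← h2.map_eq, MeasurableEquiv.map_apply]
  have h3 : (MeasurableEquiv.arrowProdEquivProdArrow ℕ Prop s) ⁻¹' E = Set.univ.pi (fun i : s => t i) := by
    ext q
    simp [hE, MeasurableEquiv.arrowProdEquivProdArrow, Equiv.arrowProdEquivProdArrow]
  rw [h3, Measure.pi_pi]
  exact Finset.prod_attach s fun i => (site ξ p) (t i)

/-- percolation on the tree with offspring numbers `c`, via marks on all labels -/
theorem setBernoulli_tree (c : List ℕ → ℕ) (r : ℕ) :
    setBernoulli (Set.univ : Set {v : List ℕ // InTree c v}) p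
      {A | Percolates (treeGraph c) r A} =
    marks p {m | Percolates (treeGraph c) r {v | m v.1}} := by
  have hm := measurableSet_percolates (treeGraph c) r
  have hmeas : Measurable (fun q : {v : List ℕ // InTree c v} → Prop => {i | q i}) :=
    MeasurableEquiv.setOfPred.measurable
  rw [setBernoulli_univ_eq, Measure.map_apply hmeas hm]
  have h1 : (marks p).map (fun m (v : {v : List ℕ // InTree c v}) => m v.1)
      = Measure.infinitePi fun _ : {v : List ℕ // InTree c v} => ber p := by
    unfold marks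
    exact Measure.map_infinitePi_infinitePi_of_inj (P := fun _ : List ℕ => ber p)
      (f := fun v : {v : List ℕ // InTree c v} => v.1) Subtype.val_injective
  rw [← h1, Measure.map_apply (by fun_prop) (hmeas hm)]
  rfl

theorem perc_noObs {r k : ℕ} (hr : 2 ≤ r) (c : List ℕ → ℕ) (m : List ℕ → Prop)
    (h : Percolates (treeGraph c) r {v | m v.1}) : zip (c, m) ∈ NoObs (H r k) := by
  intro v hv hH
  obtain ⟨n, hn⟩ := h ⟨v, hv⟩
  exact healthy_of_H hr (zip (c, m)) ⟨v, hv⟩ hH n hn

/-- The quenched statement for one value of `p`. -/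
theorem quenched {r : ℕ} (hr : 2 ≤ r) {u : ℝ≥0∞}
    (hu : unitInterval.toNNReal p + Phi ξ r u ≤ u) (hu1 : u < 1) (hp : (p : ℝ) < 1) :
    ∀ᵐ c ∂(gwLaw ξ), {v | InTree c v}.Infinite →
      setBernoulli (Set.univ : Set {v : List ℕ // InTree c v}) p
        {A | Percolates (treeGraph c) r A} = 0 := by
  obtain ⟨k, hk⟩ : ∃ k : ℕ, ξ {k} ≠ 0 := by
    by_contra hcon
    push Not at hcon
    have h1 : ξ Set.univ = 0 := by
      rw [← Set.iUnion_of_singleton]
      exact measure_iUnion_null hcon
    rw [measure_univ] at h1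
    exact one_ne_zero h1
  have hpos := H_pos ξ p hu hu1 hp hk
  have hnull := noObs_null ξ p (measurableSet_H r k) hpos
  have hpres : MeasurePreserving zip ((gwLaw ξ).prod (marks p)) (field (site ξ p)) :=
    ⟨measurable_zip, map_zip ξ p⟩
  have h2 := hpres.quasiMeasurePreserving.preimage_null hnull
  have h3 := Measure.ae_ae_of_ae_prod (measure_eq_zero_iff_ae_notMem.1 h2)
  filter_upwards [h3] with c hc hinf
  rw [setBernoulli_tree]
  rw [measure_eq_zero_iff_ae_notMem]
  filter_upwards [hc] with m hm hperc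
  exact hm ⟨hinf, perc_noObs hr c m hperc⟩

/-- all values of `p` below a threshold at once -/
theorem criticalProb_ge {r : ℕ} (hr : 2 ≤ r) {t : ℝ} (ht1 : t ≤ 1)
    (h : ∀ p : unitInterval, 0 < (p : ℝ) → (p : ℝ) < t → ∃ u : ℝ≥0∞,
      unitInterval.toNNReal p + Phi ξ r u ≤ u ∧ u < 1) :
    ∀ᵐ c ∂(gwLaw ξ), {v | InTree c v}.Infinite → t ≤ criticalProb (treeGraph c) r := by
  -- rational values
  have hq : ∀ q : ℚ, ∀ᵐ c ∂(gwLaw ξ), {v | InTree c v}.Infinite →
      ∀ hp : (q : ℝ) ∈ Set.Icc (0 : ℝ) 1, 0 < (q : ℝ) → (q : ℝ) < t →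
      setBernoulli (Set.univ : Set {v : List ℕ // InTree c v}) ⟨(q : ℝ), hp⟩
        {A | Percolates (treeGraph c) r A} = 0 := by
    intro q
    by_cases hp : (q : ℝ) ∈ Set.Icc (0 : ℝ) 1 ∧ 0 < (q : ℝ) ∧ (q : ℝ) < t
    · obtain ⟨u, hu, hu1⟩ := h ⟨(q : ℝ), hp.1⟩ hp.2.1 hp.2.2
      have := quenched ξ ⟨(q : ℝ), hp.1⟩ hr hu hu1 (lt_of_lt_of_le hp.2.2 ht1)
      filter_upwards [this] with c hc hinf _ _ _
      exact hc hinf
    · filter_upwards with c _ h1 h2 h3
      exact absurd ⟨h1, h2, h3⟩ hp
  rw [← ae_all_iff] at hq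
  filter_upwards [hq] with c hc hinf
  unfold criticalProb
  apply le_csInf
  · refine ⟨1, by simp, ?_⟩
    have : (⟨1, by simp⟩ : unitInterval) = 1 := rfl
    rw [this, setBernoulli_one]
    have h1 : (Set.univ : Set {v : List ℕ // InTree c v}) ∈ {A | Percolates (treeGraph c) r A} :=
      fun v => ⟨0, Set.mem_univ v⟩
    rw [Measure.dirac_apply' _ (measurableSet_percolates _ _), Set.indicator_of_mem h1]
    simp
  · rintro p ⟨hp, hpos⟩
    by_contra hlt
    push Not at hlt
    -- choose a rational q with p < q < t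
    obtain ⟨q, hq1, hq2⟩ := exists_rat_btwn hlt
    have hq0 : (0 : ℝ) < q := lt_of_le_of_lt hp.1 hq1
    have hq3 : (q : ℝ) < 1 := lt_of_lt_of_le hq2 ht1
    have hqI : (q : ℝ) ∈ Set.Icc (0 : ℝ) 1 := ⟨hq0.le, hq3.le⟩
    have h1 := hc q hinf hqI hq0 hq2
    have hp1 : p < 1 := hq1.trans hq3
    -- s with q = p + (1-p) s
    have hsI : (q - p) / (1 - p) ∈ Set.Icc (0 : ℝ) 1 := by
      constructor
      · apply div_nonneg <;> linarith
      · rw [div_le_one (by linarith)]
        linarith
    have h2 := perc_mono (treeGraph c) r ⟨p, hp⟩ ⟨(q - p) / (1 - p), hsI⟩ ⟨(q : ℝ), hqI⟩ (by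
      have : (1 - p) ≠ 0 := by linarith
      simp only
      field_simp
      ring)
    rw [h1] at h2
    exact absurd hpos (by simpa using h2)

end Pool.Agent.Work.MP_0cce6e_pr
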