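import Mathlib
import Pool.Agent.Work.MP_0cce6e_pr.Defs
import Pool.Agent.Work.MP_0cce6e_pr.Quench

/-!
# Moment lower bounds for bootstrap percolation thresholds on Galton-Watson trees

For every `r ≥ 2` and every `α ∈ (0, r - 1]` (in particular for `r ≥ 3` and `α ∈ (1, r - 1]`), every
offspring law `ξ` and almost every infinite Galton-Watson tree `T`,
`p_c(T, r) ≥ 2 ^ (-(1 + α) / α) * (E ξ ^ (1 + α)) ^ (-1 / α)`.

Idea: `P(Bin(ξ, u) ≥ r) ≤ E min(1, (ξ u)^r) ≤ u ^ (1 + α) E ξ ^ (1 + α)`; with `u = 2 p` the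
recursion `u ↦ p + (1 - p) P(Bin(ξ, u) ≥ r)` maps `[0, 2p]` to itself. The passage from the
recursion to the quenched statement is a zero-one argument.
-/

open MeasureTheory ProbabilityTheory Pool.Agent.Work.MP_0cce6e_pr
open scoped ENNReal

namespace Pool.Agent.Results.MP_0cce6e_pr.MomentBound

theorem min_one_pow_le (y : ℝ≥0∞) (r : ℕ) {θ : ℝ} (h0 : 0 < θ) (hr : θ ≤ r) :
    min 1 (y ^ r) ≤ y ^ θ := by
  rcases le_total y 1 with h | h
  · refine (min_le_right _ _).trans ?_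
    rw [← ENNReal.rpow_natCast]
    exact ENNReal.rpow_le_rpow_of_exponent_ge h hr
  · exact (min_le_left _ _).trans (ENNReal.one_le_rpow h h0)

theorem Phi_le (ξ : Measure ℕ) (r : ℕ) {θ : ℝ} (h0 : 0 < θ) (hr : θ ≤ r) (q : ℝ≥0∞) :
    Phi ξ r q ≤ q ^ θ * ∫⁻ k : ℕ, (k : ℝ≥0∞) ^ θ ∂ξ := by
  unfold Phi
  rw [lintegral_countable', ← ENNReal.tsum_mul_left]
  refine ENNReal.tsum_le_tsum fun k => ?_
  calc ξ {k} * min 1 ((k * q) ^ r) ≤ ξ {k} * (k * q) ^ θ := by
        gcongr
        exact min_one_pow_le _ r h0 hr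
    _ = q ^ θ * ((k : ℝ≥0∞) ^ θ * ξ {k}) := by
        rw [ENNReal.mul_rpow_of_nonneg _ _ h0.le]
        ring

theorem nat_le_rpow (k : ℕ) {θ : ℝ} (h : 1 ≤ θ) : (k : ℝ≥0∞) ≤ (k : ℝ≥0∞) ^ θ := by
  rcases Nat.eq_zero_or_pos k with rfl | hk
  · simp
  · have h1 : (1 : ℝ≥0∞) ≤ k := by exact_mod_cast hk
    calc (k : ℝ≥0∞) = (k : ℝ≥0∞) ^ (1 : ℝ) := (ENNReal.rpow_one _).symm
      _ ≤ (k : ℝ≥0∞) ^ θ := ENNReal.rpow_le_rpow_of_exponent_le h1 h

/-- subcritical trees are almost surely finite -/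
theorem ae_finite (ξ : Measure ℕ) [IsProbabilityMeasure ξ] (h : ∫⁻ k : ℕ, (k : ℝ≥0∞) ∂ξ < 1) :
    ∀ᵐ c ∂(gwLaw ξ), ¬ {v | InTree c v}.Infinite := by
  have h1 := subcritical ξ (0 : unitInterval) h
  have hpres : MeasurePreserving zip ((gwLaw ξ).prod (marks 0)) (field (site ξ 0)) :=
    ⟨measurable_zip, map_zip ξ 0⟩
  have h2 := hpres.quasiMeasurePreserving.preimage_null h1
  have h3 := Measure.ae_ae_of_ae_prod (measure_eq_zero_iff_ae_notMem.1 h2)
  filter_upwards [h3] with c hc hinf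
  have h4 : ∀ᵐ m ∂(marks 0), False := by
    filter_upwards [hc] with m hm
    exact hm hinf
  rw [Filter.eventually_false_iff_eq_bot] at h4
  exact absurd h4 (by
    have : (ae (marks 0)).NeBot := ae_neBot.2 (IsProbabilityMeasure.ne_zero _)
    exact this.ne)

/-- **Answer to Q1** (yes, in the full range `r ≥ 2`, `0 < α ≤ r - 1`, with an explicit constant
not depending on `r`). -/
theorem result (r : ℕ) (hr : 2 ≤ r) (α : ℝ) (hα : 0 < α) (hα' : α ≤ r - 1) :
    ∃ c : ℝ, c = 2 ^ (-(1 + α) / α) ∧ 0 < c ∧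
      ∀ ξ : Measure ℕ, IsProbabilityMeasure ξ →
        ∀ᵐ t ∂(gwLaw ξ), {v | InTree t v}.Infinite →
          ENNReal.ofReal c * (∫⁻ k : ℕ, (k : ℝ≥0∞) ^ (1 + α) ∂ξ) ^ (-(1 / α))
            ≤ ENNReal.ofReal (criticalProb (treeGraph t) r) := by
  refine ⟨_, rfl, by positivity, fun ξ hξ => ?_⟩
  set M := ∫⁻ k : ℕ, (k : ℝ≥0∞) ^ (1 + α) ∂ξ with hM
  set c : ℝ := 2 ^ (-(1 + α) / α) with hc
  have hcpos : 0 < c := by positivity
  rcases eq_or_ne M ⊤ with htop | htop
  · filter_upwards with t _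
    rw [htop, ENNReal.top_rpow_of_neg (by
      have : 0 < 1 / α := by positivity
      linarith), mul_zero]
    exact zero_le
  rcases lt_or_ge M 1 with hlt | hge
  · -- subcritical
    have hm : ∫⁻ k : ℕ, (k : ℝ≥0∞) ∂ξ < 1 :=
      lt_of_le_of_lt (lintegral_mono fun k => nat_le_rpow k (by linarith)) hlt
    filter_upwards [ae_finite ξ hm] with t ht hinf
    exact absurd hinf ht
  · -- main case
    set m : ℝ := M.toReal with hm
    have hm1 : 1 ≤ m := by
      rw [hm, ← ENNReal.toReal_one]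
      exact (ENNReal.toReal_le_toReal ENNReal.one_ne_top htop).2 hge
    have hMm : M = ENNReal.ofReal m := (ENNReal.ofReal_toReal htop).symm
    set τ : ℝ := c * m ^ (-(1 / α)) with hτ
    have hmpow : m ^ (-(1 / α)) ≤ 1 :=
      Real.rpow_le_one_of_one_le_of_nonpos hm1 (by
        have : 0 < 1 / α := by positivity
        linarith)
    have hc2 : c ≤ 1 / 2 := by
      have h1 : -(1 + α) / α ≤ -1 := by
        rw [div_le_iff₀ hα]; linarith
      calc c ≤ (2 : ℝ) ^ (-1 : ℝ) := Real.rpow_le_rpow_of_exponent_le (by norm_num) h1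
        _ = 1 / 2 := by rw [Real.rpow_neg_one]; norm_num
    have hτ2 : τ ≤ 1 / 2 := by
      have : 0 ≤ m ^ (-(1 / α)) := by positivity
      nlinarith
    have key := criticalProb_ge ξ hr (t := τ) (by linarith) (fun p hp0 hpτ => by
      refine ⟨ENNReal.ofReal (2 * p), ?_, ?_⟩
      · have hpP : (unitInterval.toNNReal p : ℝ≥0∞) = ENNReal.ofReal (p : ℝ) := by
          rw [ENNReal.ofReal_eq_coe_nnreal hp0.le]
          rfl
        have hPhi := Phi_le ξ r (θ := 1 + α) (by linarith) (by linarith) (ENNReal.ofReal (2 * p))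
        rw [← hM, hMm, ENNReal.ofReal_rpow_of_nonneg (by linarith) (by linarith),
          ← ENNReal.ofReal_mul (by positivity)] at hPhi
        -- (2p)^(1+α) m ≤ p
        have hreal : (2 * (p : ℝ)) ^ (1 + α) * m ≤ p := by
          have h1 : (p : ℝ) ^ α ≤ τ ^ α := Real.rpow_le_rpow hp0.le hpτ.le hα.le
          have h2 : τ ^ α = 2 ^ (-(1 + α)) * m⁻¹ := by
            rw [hτ, Real.mul_rpow hcpos.le (by positivity), hc, ← Real.rpow_mul (by norm_num),
              ← Real.rpow_mul (by linarith)]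
            have e1 : -(1 + α) / α * α = -(1 + α) := by field_simp
            have e2 : -(1 / α) * α = -1 := by field_simp
            rw [e1, e2, Real.rpow_neg_one]
          rw [h2] at h1
          have h3 : (2 * (p : ℝ)) ^ (1 + α) = 2 ^ (1 + α) * (p * (p : ℝ) ^ α) := by
            rw [Real.mul_rpow (by norm_num) hp0.le, Real.rpow_add hp0, Real.rpow_one]
          rw [h3]
          have h4 : (2 : ℝ) ^ (1 + α) * 2 ^ (-(1 + α)) = 1 := by
            rw [← Real.rpow_add (by norm_num)]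
            simp
          calc (2 : ℝ) ^ (1 + α) * (p * (p : ℝ) ^ α) * m
              ≤ 2 ^ (1 + α) * (p * (2 ^ (-(1 + α)) * m⁻¹)) * m := by gcongr
            _ = (2 ^ (1 + α) * 2 ^ (-(1 + α))) * p * (m⁻¹ * m) := by ring
            _ = p := by rw [h4, inv_mul_cancel₀ (by linarith)]; ring
        rw [hpP]
        calc ENNReal.ofReal (p : ℝ) + Phi ξ r (ENNReal.ofReal (2 * p))
            ≤ ENNReal.ofReal p + ENNReal.ofReal ((2 * (p : ℝ)) ^ (1 + α) * m) := by gcongr
          _ ≤ ENNReal.ofReal p + ENNReal.ofReal p := by gcongr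
          _ = ENNReal.ofReal (2 * p) := by
              rw [← ENNReal.ofReal_add hp0.le hp0.le]; congr 1; ring
      · rw [← ENNReal.ofReal_one]
        exact (ENNReal.ofReal_lt_ofReal_iff (by norm_num)).2 (by linarith))
    filter_upwards [key] with t ht hinf
    have h1 := ht hinf
    rw [hMm, ENNReal.ofReal_rpow_of_pos (by linarith), ← ENNReal.ofReal_mul hcpos.le]
    exact ENNReal.ofReal_le_ofReal h1

end Pool.Agent.Results.MP_0cce6e_pr.MomentBound
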